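import Pool.Agent.helper73.SPV.Spec
import Pool.Agent.helper82.NH.FLG

set_option autoImplicit false

namespace Pool.Agent.SPV

open Matrix Module Pool.Agent.SHL Pool.Agent.H48SL

/-- integer matrices as endomorphisms of `ℚ ^ n` -/
private noncomputable def XSL_phi (n : ℕ) : Matrix (Fin n) (Fin n) ℤ →+* Module.End ℚ (Fin n → ℚ) :=
  ((Matrix.toLinAlgEquiv' (R := ℚ) (n := Fin n)).toRingEquiv.toRingHom).comp
    ((Int.castRingHom ℚ).mapMatrix)

private theorem XSL_phi_apply {n : ℕ} (M : Matrix (Fin n) (Fin n) ℤ) (v : Fin n → ℚ) :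
    XSL_phi n M v = (M.map (Int.castRingHom ℚ)) *ᵥ v := rfl

private theorem XSL_phi_inj (n : ℕ) : Function.Injective (XSL_phi n) := by
  intro A B hAB
  have h1 : (Int.castRingHom ℚ).mapMatrix A = (Int.castRingHom ℚ).mapMatrix B :=
    (Matrix.toLinAlgEquiv' (R := ℚ) (n := Fin n)).injective hAB
  ext i j
  have h2 := congrFun (congrFun h1 i) j
  simp only [RingHom.mapMatrix_apply, Matrix.map_apply, eq_intCast, Int.cast_inj] at h2
  exact h2

/-- the action on `ℚ ^ n` -/
private noncomputable def XSL_rho {n : ℕ} (P : Subgroup (SLn n)) : P →* Module.End ℚ (Fin n → ℚ) where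
  toFun g := XSL_phi n ((g : SLn n) : Matrix (Fin n) (Fin n) ℤ)
  map_one' := by
    rw [Subgroup.coe_one, Matrix.SpecialLinearGroup.coe_one, map_one]
  map_mul' := by
    intro a b
    rw [Subgroup.coe_mul, Matrix.SpecialLinearGroup.coe_mul, map_mul]

private theorem XSL_int {n : ℕ} (P : Subgroup (SLn n)) (g : P) : IsIntegral ℤ (XSL_rho P g) := by
  have h1 : IsIntegral ℤ ((g : SLn n) : Matrix (Fin n) (Fin n) ℤ) := Matrix.isIntegral _
  obtain ⟨p, hp, hp0⟩ := h1
  refine ⟨p, hp, ?_⟩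
  have h2 : XSL_rho P g = XSL_phi n ((g : SLn n) : Matrix (Fin n) (Fin n) ℤ) := rfl
  have h3 : algebraMap ℤ (Module.End ℚ (Fin n → ℚ)) =
      (XSL_phi n).comp (algebraMap ℤ (Matrix (Fin n) (Fin n) ℤ)) :=
    Subsingleton.elim _ _
  rw [h2, h3, ← Polynomial.hom_eval₂, hp0, map_zero]

/-- the integer vectors -/
private def XSL_cast (n : ℕ) : (Fin n → ℤ) →+ (Fin n → ℚ) where
  toFun v := fun i => (v i : ℚ)
  map_zero' := by
    funext i
    simp
  map_add' := by
    intro v w
    funext i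
    simp

theorem XSL (hPBA : PBA_stmt) (hXMA : XMA_stmt) : XSL_stmt := by
  intro n P hP
  have hfg : (XSL_cast n).range.FG := by
    have h1 : AddGroup.FG (Fin n → ℤ) := Module.Finite.iff_addGroup_fg.mp inferInstance
    have h2 : AddGroup.FG (XSL_cast n).range := AddGroup.fg_range _
    exact AddGroup.fg_iff_addSubgroup_fg _ |>.mp h2
  have hspan : Submodule.span ℚ ((XSL_cast n).range : Set (Fin n → ℚ)) = ⊤ := by
    rw [eq_top_iff, ← (Pi.basisFun ℚ (Fin n)).span_eq]
    apply Submodule.span_mono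
    rintro _ ⟨i, rfl⟩
    refine ⟨Pi.single i 1, ?_⟩
    funext j
    show (((Pi.single i 1 : Fin n → ℤ) j : ℤ) : ℚ) = _
    rw [Pi.basisFun_apply]
    by_cases hij : j = i
    · subst hij
      simp
    · rw [Pi.single_eq_of_ne hij, Pi.single_eq_of_ne hij]
      simp
  obtain ⟨N, hN1, hN2⟩ := hXMA (Fin n → ℚ) P hP (XSL_rho P) (by
    intro a b hab
    have h1 := XSL_phi_inj n hab
    apply Subtype.ext
    apply Subtype.ext
    exact h1) (XSL_int P) (XSL_cast n).range hfg hspan (by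
    rintro g _ ⟨v, rfl⟩
    refine ⟨((g : SLn n) : Matrix (Fin n) (Fin n) ℤ) *ᵥ v, ?_⟩
    show _ = XSL_phi n ((g : SLn n) : Matrix (Fin n) (Fin n) ℤ) (XSL_cast n v)
    rw [XSL_phi_apply]
    funext i
    show (((((g : SLn n) : Matrix (Fin n) (Fin n) ℤ) *ᵥ v) i : ℤ) : ℚ) = _
    simp only [Matrix.mulVec, dotProduct, Matrix.map_apply, eq_intCast]
    push_cast
    rfl)
  refine ⟨N, ?_, ?_⟩
  · have h1 := (hPBA P).2.2.2.1 (SLn n) P.subtype N Set.univ hN1
    have h2 : (P.subtype '' (Set.univ : Set P)) = (P : Set (SLn n)) := by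
      rw [Set.image_univ]
      ext x
      simp
    rwa [h2] at h1
  · have h1 := Pool.Agent.NH.FLG_map P.subtype P.subtype_injective N ⊤ hN2
    rwa [← MonoidHom.range_eq_map, Subgroup.range_subtype] at h1

end Pool.Agent.SPV
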